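import Mathlib
import Pool.Agent.H29.SliceDefs
import Pool.Agent.H29.Slice

set_option autoImplicit false

namespace Pool.Agent.Results.MP_626f3c_co.NotLinear

open Pool.Agent.H29.Slice Module

section general
variable {F : Type} [Field F] {d : ℕ} {n : Fin d → ℕ}

theorem echelon {N : ℕ} (r : ℕ) (a : ℕ → Fin N → F) : ∃ C : Finset (Fin N), C.card ≤ r ∧
    ∀ p ∉ C, ∃ w : Fin N → F, (∀ i, i < r → a i ⬝ᵥ w = 0) ∧ w p = 1 ∧ ∀ x < p, w x = 0 := by
  classical
  let P : Finset (Fin N) := Finset.univ.filter fun p =>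
    ∃ w : Fin N → F, (∀ i, i < r → a i ⬝ᵥ w = 0) ∧ w p = 1 ∧ ∀ x < p, w x = 0
  refine ⟨Pᶜ, ?_, fun p hp => by simpa [P] using hp⟩
  let L : (Fin N → F) →ₗ[F] (Fin r → F) × (P → F) :=
    { toFun := fun w => (fun i => a i ⬝ᵥ w, fun p => w p)
      map_add' := fun u v => by ext <;> simp
      map_smul' := fun c v => by ext <;> simp }
  have hL : Function.Injective L := by
    rw [injective_iff_map_eq_zero]
    intro w hw
    by_contra h0
    obtain ⟨p, hp, hmin⟩ := (wellFounded_lt (α := Fin N)).has_min {x | w x ≠ 0}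
      (Function.ne_iff.mp h0)
    have hP : p ∈ P := by
      simp only [P, Finset.mem_filter, Finset.mem_univ, true_and]
      refine ⟨(w p)⁻¹ • w, fun i hi => ?_, by simpa using inv_mul_cancel₀ hp, fun x hx => ?_⟩
      · have : a i ⬝ᵥ w = 0 := congrFun (congrArg Prod.fst hw) ⟨i, hi⟩
        rw [dotProduct_smul, this, smul_zero]
      · have : w x = 0 := by
          by_contra h
          exact hmin x h hx
        simp [this]
    exact hp (congrFun (congrArg Prod.snd hw) ⟨p, hP⟩)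
  have := LinearMap.finrank_le_finrank_of_injective hL
  simp at this
  rw [Finset.card_compl]
  simp
  omega

theorem cover_of_dec {T : (∀ j, Fin (n j)) → F} (hT : ∀ x y, T x ≠ 0 → T y ≠ 0 → x ≤ y → x = y)
    {r a b} (h : IsDec T r a b) : ∃ C : ∀ j, Finset (Fin (n j)), (∀ j, (C j).card ≤ r j) ∧
      ∀ x, T x ≠ 0 → ∃ j, x j ∈ C j := by
  classical
  choose C hC hw using fun j => echelon (r j) (a j)
  refine ⟨C, hC, fun p hp => ?_⟩
  by_contra hn
  push Not at hn
  choose w h1 h2 h3 using fun j => hw j (p j) (hn j)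
  have := vanish h w h1
  unfold Phi at this
  rw [Finset.sum_eq_single p] at this
  · simp [h2, hp] at this
  · intro x _ hx
    by_cases hx0 : T x = 0
    · simp [hx0]
    have : ¬ p ≤ x := fun e => hx (hT p x hp hx0 e).symm
    rw [Pi.le_def] at this
    push Not at this
    obtain ⟨j, hj⟩ := this
    rw [Finset.prod_eq_zero (Finset.mem_univ j) (h3 j _ hj), mul_zero]
  · simp

theorem dec_of_cover (T : (∀ j, Fin (n j)) → F) (C : ∀ j, Finset (Fin (n j)))
    (hC : ∀ x, T x ≠ 0 → ∃ j, x j ∈ C j) : ∃ a b, IsDec T (fun j => (C j).card) a b ∧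
      ∀ j, ∀ c ∈ C j, ∃ i, i < (C j).card ∧ a j i = Pi.single c 1 := by
  classical
  let a : ∀ j, ℕ → Fin (n j) → F := fun j i =>
    if h : i < (C j).card then Pi.single ((C j).equivFin.symm ⟨i, h⟩).1 1 else 0
  have ha : ∀ j, ∀ c ∈ C j, ∃ i, i < (C j).card ∧ a j i = Pi.single c 1 := fun j c hc =>
    ⟨(C j).equivFin ⟨c, hc⟩, Fin.is_lt _, by simp [a]⟩
  obtain ⟨b, hb⟩ := dec_of_vanish T (fun j => (C j).card) a fun w hw => by
    refine Finset.sum_eq_zero fun x _ => ?_
    by_cases hx : T x = 0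
    · simp [hx]
    obtain ⟨j, hj⟩ := hC x hx
    obtain ⟨i, hi, e⟩ := ha j _ hj
    have := hw j i hi
    rw [e, single_dotProduct, one_mul] at this
    rw [Finset.prod_eq_zero (Finset.mem_univ j) this, mul_zero]
  exact ⟨a, b, hb, ha⟩

end general

/-- the point with coordinates `(a, b, c, c, …, c)` -/
def pt (a b c j : ℕ) : ℕ := if j = 0 then a else if j = 1 then b else c

/-- the edges of the hypergraph -/
def Edge (m a b c : ℕ) : Prop :=
  (a < m ∧ b = 2 * m - 1 - a ∧ c = a) ∨ (b < m ∧ a = 2 * m - 1 - b ∧ c = b) ∨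
    (a < b ∧ b < m ∧ c = m + m * m - (a * m + b + 1))

theorem small {m a b : ℕ} (h : a < b) (hb : b < m) : a * m + b + 1 ≤ m * m := by nlinarith

theorem anti {m a b c a' b' c' : ℕ} (h : Edge m a b c) (h' : Edge m a' b' c') (ha : a ≤ a')
    (hb : b ≤ b') (hc : c ≤ c') : a = a' ∧ b = b' ∧ c = c' := by
  have h0 := Nat.mul_le_mul_right m ha
  rcases h with h | h | ⟨h1, h2, h3⟩ <;> rcases h' with h' | h' | ⟨h1', h2', h3'⟩
  any_goals omega
  · have := small h1 h2
    omega
  · have := small h1 h2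
    omega
  · have := small h1 h2
    have := small h1' h2'
    have e : a * m = a' * m := by omega
    have := Nat.eq_of_mul_eq_mul_right (by omega) e
    omega

/-- the gadget a vertex is charged to -/
def owner (m j x : ℕ) : ℕ :=
  if x < m then x else if j < 2 then 2 * m - 1 - x else (m + m * m - 1 - x) % m

theorem lower {m : ℕ} (X : Finset (ℕ × ℕ))
    (hX : ∀ a b c, Edge m a b c → ∃ j, (j, pt a b c j) ∈ X) : 2 * m ≤ X.card + 1 := by
  classical
  let f : ℕ → Finset (ℕ × ℕ) := fun v => X.filter fun p => owner m p.1 p.2 = v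
  have h1 : ∀ v < m, ∃ j, (j, pt v (2 * m - 1 - v) v j) ∈ f v := fun v hv => by
    obtain ⟨j, hj⟩ := hX v _ v (Or.inl ⟨hv, rfl, rfl⟩)
    refine ⟨j, Finset.mem_filter.mpr ⟨hj, ?_⟩⟩
    unfold owner pt
    split_ifs <;> omega
  have h2 : ∀ v < m, ∃ j, (j, pt (2 * m - 1 - v) v v j) ∈ f v := fun v hv => by
    obtain ⟨j, hj⟩ := hX _ v v (Or.inr (Or.inl ⟨hv, rfl, rfl⟩))
    refine ⟨j, Finset.mem_filter.mpr ⟨hj, ?_⟩⟩
    unfold owner pt
    split_ifs <;> omega
  have h3 : ∀ v < m, (f v).card ≤ 1 → ∀ p ∈ f v, 2 ≤ p.1 ∧ p.2 = v := fun v hv hc p hp => by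
    obtain ⟨j, hj⟩ := h1 v hv
    obtain ⟨j', hj'⟩ := h2 v hv
    have e1 := Finset.card_le_one.mp hc _ hj _ hj'
    have e2 := Finset.card_le_one.mp hc _ hp _ hj
    subst e2
    simp only [Prod.mk.injEq] at e1
    obtain ⟨rfl, e1⟩ := e1
    unfold pt at e1 ⊢
    split_ifs at e1 ⊢ <;> omega
  have h4 : ∀ u v, u < v → v < m → (f u).card ≤ 1 → (f v).card ≤ 1 → False := by
    intro u v huv hv hu' hv'
    obtain ⟨j, hj⟩ := hX u v _ (Or.inr (Or.inr ⟨huv, hv, rfl⟩))
    have hs := small huv hv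
    unfold pt at hj
    split_ifs at hj with e0 e1
    · have := h3 u (by omega) hu' _ (Finset.mem_filter.mpr ⟨hj, by simp [owner]; omega⟩)
      omega
    · have := h3 v hv hv' _ (Finset.mem_filter.mpr ⟨hj, by simp [owner]; omega⟩)
      omega
    · have := h3 v hv hv' _ (Finset.mem_filter.mpr ⟨hj, by
        unfold owner
        rw [if_neg (by omega), if_neg (by omega)]
        have : m + m * m - 1 - (m + m * m - (u * m + v + 1)) = v + u * m := by omega
        simp only [this, Nat.add_mul_mod_self_right, Nat.mod_eq_of_lt hv]⟩)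
      omega
  let B := (Finset.range m).filter fun v => (f v).card ≤ 1
  have hB : B.card ≤ 1 := Finset.card_le_one.mpr fun u hu v hv => by
    simp only [B, Finset.mem_filter, Finset.mem_range] at hu hv
    rcases lt_trichotomy u v with h | h | h
    · exact (h4 u v h hv.1 hu.2 hv.2).elim
    · exact h
    · exact (h4 v u h hu.1 hv.2 hu.2).elim
  have h5 : ∑ v ∈ Finset.range m, (f v).card ≤ X.card := by
    rw [← Finset.card_biUnion]
    · exact Finset.card_le_card (Finset.biUnion_subset.mpr fun v _ => Finset.filter_subset _ _)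
    · intro u _ v _ huv
      exact Finset.disjoint_filter.mpr fun p _ e1 e2 => huv (e1.symm.trans e2)
  have h6 : ∑ v ∈ Finset.range m, 2 ≤
      ∑ v ∈ Finset.range m, ((f v).card + if (f v).card ≤ 1 then 1 else 0) :=
    Finset.sum_le_sum fun v hv => by
      obtain ⟨j, hj⟩ := h1 v (Finset.mem_range.mp hv)
      have := Finset.card_pos.mpr ⟨_, hj⟩
      split_ifs <;> omega
  rw [Finset.sum_add_distrib, ← Finset.card_filter] at h6
  simp only [Finset.sum_const, Finset.card_range, smul_eq_mul] at h6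
  change m * 2 ≤ _ + B.card at h6
  omega

theorem pt_lt {m a b c : ℕ} (h : Edge m a b c) (j : ℕ) : pt a b c j < 2 * m + m * m := by
  unfold pt
  rcases h with h | h | h <;> split_ifs <;> omega

open Classical in
/-- the tensor -/
noncomputable def ten (F : Type) [Field F] (e m : ℕ) (x : Fin (e + 3) → Fin (2 * m + m * m)) : F :=
  if ∃ a b c, Edge m a b c ∧ ∀ j, (x j : ℕ) = pt a b c j then 1 else 0

section main
variable {F : Type} [Field F] {e m : ℕ}

theorem ten_ne {x : Fin (e + 3) → Fin (2 * m + m * m)} :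
    ten F e m x ≠ 0 ↔ ∃ a b c, Edge m a b c ∧ ∀ j, (x j : ℕ) = pt a b c j := by
  unfold ten
  split_ifs with h <;> simp [h]

theorem ten_lower {r a b} (h : IsDec (n := fun _ => 2 * m + m * m) (ten F e m) r a b) :
    2 * m ≤ ∑ j, r j + 1 := by
  classical
  obtain ⟨C, hC, hc⟩ := cover_of_dec (fun x y hx hy hxy => by
    obtain ⟨a, b, c, h1, h2⟩ := ten_ne.mp hx
    obtain ⟨a', b', c', h1', h2'⟩ := ten_ne.mp hy
    have k : ∀ j : Fin (e + 3), pt a b c j ≤ pt a' b' c' j := fun j => by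
      rw [← h2, ← h2']
      exact hxy j
    obtain ⟨rfl, rfl, rfl⟩ := anti h1 h1' (k ⟨0, by omega⟩) (k ⟨1, by omega⟩) (k ⟨2, by omega⟩)
    funext j
    exact Fin.ext ((h2 j).trans (h2' j).symm)) h
  have := lower (m := m) ((Finset.univ.sigma C).image fun p => (p.1.1, p.2.1)) fun a b c h => by
    obtain ⟨j, hj⟩ := hc (fun j => ⟨pt a b c j, pt_lt h _⟩) (ten_ne.mpr ⟨a, b, c, h, fun _ => rfl⟩)
    exact ⟨j, Finset.mem_image.mpr ⟨⟨j, _⟩, Finset.mem_sigma.mpr ⟨Finset.mem_univ _, hj⟩, rfl⟩⟩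
  have h2 := (Finset.card_image_le (s := Finset.univ.sigma C)
    (f := fun p => (p.1.1, p.2.1))).trans ((Finset.card_sigma _ _).le.trans
      (Finset.sum_le_sum fun j _ => hC j))
  omega

theorem ten_upper {u v : ℕ} (huv : u < v) (hv : v < m) (c : Fin (2 * m + m * m))
    (hc : c.1 = m + m * m - (u * m + v + 1)) :
    ∃ r a b, IsDec (n := fun _ => 2 * m + m * m) (ten F e m) r a b ∧ ∑ j, r j = 2 * m - 1 ∧
      ∃ i, i < r 2 ∧ a 2 i = Pi.single c 1 := by
  classical
  have v2 : 2 % (e + 3) = 2 := rfl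
  let D : ℕ → Finset ℕ := fun j =>
    if j < 2 then ((Finset.range m).erase u).erase v else if j = 2 then {u, v, c.1} else ∅
  let C : Fin (e + 3) → Finset (Fin (2 * m + m * m)) := fun j =>
    Finset.univ.filter fun x => x.1 ∈ D j
  have hCD : ∀ j, (C j).card ≤ (D j).card := fun j =>
    Finset.card_le_card_of_injOn Fin.val (fun x hx => (Finset.mem_filter.mp hx).2)
      Fin.val_injective.injOn
  obtain ⟨a, b, h1, h2⟩ := dec_of_cover (n := fun _ => 2 * m + m * m) (ten F e m) C fun x hx => by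
    obtain ⟨a, b, c', h1, h2⟩ := ten_ne.mp hx
    have k0 : (x 0).1 = a := h2 0
    have k1 : (x 1).1 = b := h2 1
    have k2 : (x 2).1 = c' := h2 2
    by_contra hn
    push Not at hn
    have n0 := hn 0
    have n1 := hn 1
    have n2 := hn 2
    simp [C, D, k0, k1, k2, v2] at n0 n1 n2
    rcases h1 with h | h | ⟨h3, h4, h5⟩
    · omega
    · omega
    · obtain rfl : a = u := by omega
      obtain rfl : b = v := by omega
      omega
  refine ⟨_, a, b, h1, ?_, h2 2 c (by simp [C, D, v2])⟩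
  have h3 := ten_lower h1
  have h4 : ∑ j : Fin (e + 3), (D j).card ≤ 2 * m - 1 := by
    have : (((Finset.range m).erase u).erase v).card = m - 2 := by
      rw [Finset.card_erase_of_mem (by simp; omega), Finset.card_erase_of_mem (by simp; omega)]
      simp
      omega
    have h5 : ({u, v, c.1} : Finset ℕ).card ≤ 3 := Finset.card_le_three
    rw [Fin.sum_univ_succ, Fin.sum_univ_succ, Fin.sum_univ_succ, Finset.sum_eq_zero
      (fun j _ => by simp [D])]
    simp [D, this, v2]
    omega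
  have h5 := (Finset.sum_le_sum fun j (_ : j ∈ Finset.univ) => hCD j).trans h4
  omega

end main

theorem result (d : ℕ) (hd : 3 ≤ d) (F : Type) [Field F] (K : ℝ) :
    ∃ k : ℕ, 1 ≤ k ∧ ∃ n : Fin d → ℕ, (∀ j, 0 < n j) ∧ ∃ T : (∀ j, Fin (n j)) → F,
      sliceRank T = k ∧ ¬ ∃ A : ∀ j, Submodule F (Fin (n j) → F),
        (∀ j, (finrank F (A j) : ℝ) ≤ K * k) ∧
        ∀ r a b, IsDec T r a b → ∑ j, r j = k →
          ∀ j, Submodule.span F (a j '' Set.Iio (r j)) ≤ A j := by
  classical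
  obtain ⟨e, rfl⟩ : ∃ e, d = e + 3 := ⟨d - 3, by omega⟩
  obtain ⟨h, hh⟩ := exists_nat_gt (4 * |K|)
  have h0 : 0 < h := by
    have := abs_nonneg K
    exact_mod_cast (by linarith : (0 : ℝ) < h)
  obtain ⟨m, hm⟩ : ∃ m, m = 2 * h := ⟨_, rfl⟩
  let c : Fin h × Fin h → Fin (2 * m + m * m) := fun p =>
    ⟨m + m * m - (p.1 * m + (h + p.2) + 1), by omega⟩
  have up := fun p : Fin h × Fin h => ten_upper (F := F) (e := e) (u := p.1) (v := h + p.2)
    (by omega) (by omega) (c p) rfl
  refine ⟨2 * m - 1, by omega, fun _ => 2 * m + m * m, fun _ => Nat.add_pos_left (by omega) _, ten F e m, ?_, ?_⟩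
  · obtain ⟨r, a, b, h1, h2, -⟩ := up (⟨0, h0⟩, ⟨0, h0⟩)
    refine le_antisymm (Nat.sInf_le ⟨r, a, b, h1, h2.symm⟩) (le_csInf ⟨_, r, a, b, h1, rfl⟩ ?_)
    rintro _ ⟨r, a, b, h1, rfl⟩
    have := ten_lower h1
    omega
  rintro ⟨A, hA, hA'⟩
  have hc : Function.Injective c := by
    rintro ⟨u, v⟩ ⟨u', v'⟩ huv
    have s1 := small (m := m) (a := u) (b := h + v) (by omega) (by omega)
    have s2 := small (m := m) (a := u') (b := h + v') (by omega) (by omega)
    have e1 : h + v + u * m = h + v' + u' * m := by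
      have := congrArg Fin.val huv
      simp only [c] at this
      omega
    have e2 := congrArg (· % m) e1
    simp only [Nat.add_mul_mod_self_right] at e2
    rw [Nat.mod_eq_of_lt (by omega), Nat.mod_eq_of_lt (by omega)] at e2
    have e3 := Nat.eq_of_mul_eq_mul_right (by omega) (show u.1 * m = u'.1 * m by omega)
    exact Prod.ext (Fin.ext e3) (Fin.ext (by simpa using e2))
  have mem : ∀ p, Pi.single (c p) (1 : F) ∈ A 2 := fun p => by
    obtain ⟨r, a, b, h1, h2, i, hi, h3⟩ := up p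
    exact hA' r a b h1 h2 2 (Submodule.subset_span ⟨i, hi, h3⟩)
  have li : LinearIndependent F fun p => (⟨_, mem p⟩ : A 2) :=
    LinearIndependent.of_comp (A 2).subtype ((Pi.linearIndependent_single_one _ F).comp c hc)
  have h1 : ((h * h : ℕ) : ℝ) ≤ finrank F (A 2) := by
    exact_mod_cast (by simpa using li.fintype_card_le_finrank)
  have h2 := hA 2
  have h3 : ((2 * m - 1 : ℕ) : ℝ) ≤ 4 * h := by exact_mod_cast (by omega : 2 * m - 1 ≤ 4 * h)
  have h4 : K * ((2 * m - 1 : ℕ) : ℝ) ≤ |K| * (4 * h) :=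
    mul_le_mul (le_abs_self K) h3 (by positivity) (abs_nonneg K)
  have h5 : (0 : ℝ) < h := by exact_mod_cast h0
  push_cast at h1
  nlinarith

end Pool.Agent.Results.MP_626f3c_co.NotLinear
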